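import Pool.Agent.QKA99.Prot
import Pool.Agent.QPKE99.Alg
import Pool.Agent.QPKE99.ClassGen

/-!
# Output probabilities of oracle algorithms are functions of low degree of the oracle
-/

set_option autoImplicit false
set_option linter.unusedSectionVars false

open scoped BigOperators

namespace Pool.Agent.IQP70

open Pool.Agent.QKA99 Pool.Agent.PKE70 Pool.Agent.QPKE99

section Mul

variable {D R : Type} [DecidableEq D]

lemma deg_mul {d e : ℕ} {a b : (D → R) → ℝ} (ha : Deg d a) (hb : Deg e b) :
    Deg (d + e) (fun f => a f * b f) := by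
  unfold Deg at ha
  induction ha using AddSubmonoid.closure_induction with
  | mem g hg =>
    obtain ⟨S, hS, hg⟩ := hg
    unfold Deg at hb
    induction hb using AddSubmonoid.closure_induction with
    | mem h hh =>
      obtain ⟨S', hS', hh⟩ := hh
      refine AddSubmonoid.subset_closure ⟨S ∪ S', ?_, ?_⟩
      · exact (Finset.card_union_le _ _).trans (Nat.add_le_add hS hS')
      · intro x y hxy
        have h1 : g x = g y := hg fun i hi => hxy i (by
          rw [Finset.mem_coe] at hi
          simp [hi])
        have h2 : h x = h y := hh fun i hi => hxy i (by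
          rw [Finset.mem_coe] at hi
          simp [hi])
        simp only [h1, h2]
    | zero =>
      have : (fun f => g f * (0 : (D → R) → ℝ) f) = 0 := by
        ext f
        simp
      rw [this]
      exact AddSubmonoid.zero_mem _
    | add u v _ _ hu hv =>
      have : (fun f => g f * (u + v) f) = (fun f => g f * u f) + fun f => g f * v f := by
        ext f
        simp [mul_add]
      rw [this]
      exact AddSubmonoid.add_mem _ hu hv
  | zero =>
    have : (fun f => (0 : (D → R) → ℝ) f * b f) = 0 := by
      ext f
      simp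
    rw [this]
    exact AddSubmonoid.zero_mem _
  | add u v _ _ hu hv =>
    have : (fun f => (u + v) f * b f) = (fun f => u f * b f) + fun f => v f * b f := by
      ext f
      simp [add_mul]
    rw [this]
    exact AddSubmonoid.add_mem _ hu hv

lemma deg_mul_left {d : ℕ} {a : (D → R) → ℝ} (ha : Deg d a) (c : ℝ) :
    Deg d (fun f => c * a f) :=
  ha.comp (AddMonoidHom.mulLeft c)

lemma deg_expect {d : ℕ} {ι : Type} [Fintype ι] (a : ι → (D → R) → ℝ) (ha : ∀ i, Deg d (a i)) :
    Deg d (fun f => 𝔼 i, a i f) := by
  have h : (fun f => 𝔼 i, a i f) = fun f => (Fintype.card ι : ℝ)⁻¹ * ∑ i, a i f := by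
    ext f
    rw [Fintype.expect_eq_sum_div_card, div_eq_inv_mul]
  rw [h]
  exact deg_mul_left (Deg.sum _ _ fun i _ => ha i) _

end Mul

section Circuit

variable {D R W α : Type} [DecidableEq D] [AddCommGroup R] [Fintype R] [Fintype W] {q : ℕ}

lemma deg_state (K : Circuit D R W α q) (t : ℕ) : Deg t (fun f => K.state f t) := by
  induction t with
  | zero => exact Deg.const _
  | succ t ih => exact (ih.gate (K.site t)).unitary (K.U (t + 1))

lemma deg_normSq {d : ℕ} {v : (D → R) → EuclideanSpace ℂ (R × W)} (hv : Deg d v) (i : R × W) :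
    Deg (2 * d) (fun f => ‖v f i‖ ^ 2) := by
  have hc : Deg d (fun f => v f i) :=
    hv.comp (AddMonoidHom.mk' (fun u : EuclideanSpace ℂ (R × W) => u i) (fun u v => rfl))
  have hre : Deg d (fun f => (v f i).re) := hc.comp Complex.reAddGroupHom
  have him : Deg d (fun f => (v f i).im) := hc.comp Complex.imAddGroupHom
  have h : (fun f => ‖v f i‖ ^ 2) =
      (fun f => (v f i).re * (v f i).re) + fun f => (v f i).im * (v f i).im := by
    ext f
    rw [Complex.sq_norm, Complex.normSq_apply]
    rfl
  rw [h, two_mul]
  exact (deg_mul hre hre).add (deg_mul him him)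

lemma deg_circuit_prob (K : Circuit D R W α q) (x : α) : Deg (2 * q) (fun f => K.prob f x) := by
  classical
  unfold Circuit.prob
  refine Deg.sum _ _ fun i _ => ?_
  by_cases h : K.out i = x
  · simp only [h, if_true]
    exact deg_normSq (deg_state K q) i
  · simp only [h, if_false]
    exact (Deg.const (0 : ℝ)).mono (Nat.zero_le _)

end Circuit

section Classical

variable {D R α : Type} [Fintype D] [DecidableEq D] [Fintype R]

open Classical in
lemma deg_run {q : ℕ} (T : QAlg D R α) (hT : ∀ f, T.cost f ≤ q) (x : α) :
    Deg q (fun f => if T.run f = x then (1 : ℝ) else 0) := by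
  set view : (D → R) → D → Option R := fun g y => if y ∈ T.queries g then some (g y) else none
    with hview
  have hloc : ∀ f g : D → R, view f = view g ↔ ∀ y ∈ T.queries g, f y = g y := by
    intro f g
    constructor
    · intro h y hy
      have h1 := congrFun h y
      simp only [hview, hy, if_true] at h1
      by_cases hy' : y ∈ T.queries f
      · simpa [hy'] using h1
      · simp [hy'] at h1
    · intro h
      obtain ⟨-, h2⟩ := T.local_run h
      funext y
      simp only [hview, h2]
      by_cases hy : y ∈ T.queries g
      · simp [hy, h y hy]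
      · simp [hy]
  have hsum : (fun f => if T.run f = x then (1 : ℝ) else 0) = fun f =>
      ∑ v ∈ Finset.univ.image view, if view f = v ∧ (∃ g, view g = v ∧ T.run g = x)
        then (1 : ℝ) else 0 := by
    ext f
    have h1 : ∀ v, (if view f = v ∧ (∃ g, view g = v ∧ T.run g = x) then (1 : ℝ) else 0) =
        if view f = v then (if T.run f = x then 1 else 0) else 0 := by
      intro v
      by_cases hv : view f = v
      · subst hv
        have h2 : (∃ g, view g = view f ∧ T.run g = x) ↔ T.run f = x := by
          constructor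
          · rintro ⟨g, hg, hgx⟩
            rw [← hgx]
            exact (T.local_run ((hloc g f).mp hg)).1.symm
          · intro h
            exact ⟨f, rfl, h⟩
        simp [h2]
      · simp [hv]
    simp only [h1]
    rw [Finset.sum_ite_eq]
    simp
  rw [hsum]
  refine Deg.sum _ _ fun v hv => ?_
  obtain ⟨g, -, rfl⟩ := Finset.mem_image.mp hv
  refine AddSubmonoid.subset_closure ⟨T.queries g, (QAlg.card_queries_le g T).trans (hT g), ?_⟩
  intro f f' hff'
  have h1 : view f = view g ↔ view f' = view g := by
    rw [hloc, hloc]
    constructor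
    · intro h y hy
      rw [← hff' y (by exact_mod_cast hy)]
      exact h y hy
    · intro h y hy
      rw [hff' y (by exact_mod_cast hy)]
      exact h y hy
  simp only [h1]

end Classical

section Alg

variable {D R W Ω α : Type} [Fintype D] [DecidableEq D] [AddCommGroup R] [Fintype R] [Fintype W]
  [Fintype Ω] {q : ℕ}

lemma deg_prob (A : Alg D R W Ω α q) (x : α) : Deg (2 * q) (fun f => A.prob f x) := by
  classical
  cases A with
  | quantum K => exact deg_circuit_prob K x
  | classical T hT =>
    simp only [Alg.prob]
    exact deg_expect _ fun ω => (deg_run (T ω) (hT ω) x).mono (by omega)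

/-- Whether an output is possible is told by a function of degree at most the number of
queries. -/
lemma exists_deg_support (A : Alg D R W Ω α q) (x : α) :
    ∃ a : (D → R) → EuclideanSpace ℂ (R × W) × ℝ, Deg q a ∧ ∀ f, a f ≠ 0 ↔ A.prob f x ≠ 0 := by
  classical
  cases A with
  | quantum K =>
    refine ⟨fun f => (proj (fun i => K.out i = x) (K.state f q), 0), ?_, fun f => ?_⟩
    · exact Deg.comp (E' := EuclideanSpace ℂ (R × W) × ℝ) ((deg_state K q).proj _)
        (AddMonoidHom.mk' (fun v => (v, (0 : ℝ))) fun u v => by simp)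
    · rw [not_iff_not, Prod.mk_eq_zero]
      have h1 : (Alg.quantum K : Alg D R W Ω α q).prob f x =
          ‖proj (fun i => K.out i = x) (K.state f q)‖ ^ 2 := by
        simp only [Alg.prob]
        rw [norm_sq_eq]
        unfold Circuit.prob
        refine Finset.sum_congr rfl fun i _ => ?_
        rw [proj_apply]
        split_ifs <;> simp
      rw [h1]
      simp
  | classical T hT =>
    refine ⟨fun f => (0, (Alg.classical T hT : Alg D R W Ω α q).prob f x), ?_, fun f => ?_⟩
    · have h : Deg q (fun f => (Alg.classical T hT : Alg D R W Ω α q).prob f x) := by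
        simp only [Alg.prob]
        exact deg_expect _ fun ω => deg_run (T ω) (hT ω) x
      exact Deg.comp (E' := EuclideanSpace ℂ (R × W) × ℝ) h
        (AddMonoidHom.mk' (fun v => ((0 : EuclideanSpace ℂ (R × W)), v)) fun u v => by simp)
    · rw [not_iff_not, Prod.mk_eq_zero]
      simp

end Alg

section Suc

variable {D R PK SK C WE ΩE WD ΩD : Type} [Fintype D] [DecidableEq D]
  [AddCommGroup R] [Fintype R] [Fintype C]
  [Fintype WE] [Fintype ΩE] [Fintype WD] [Fintype ΩD] {q : ℕ}

lemma deg_suc (enc : PK → Bool → Alg D R WE ΩE C q) (dec : SK → C → Alg D R WD ΩD Bool q)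
    (pk : PK) (sk : SK) : Deg (4 * q) (fun f => suc enc dec pk f sk f) := by
  unfold suc
  refine deg_expect _ fun b => Deg.sum _ _ fun c _ => ?_
  rw [show 4 * q = 2 * q + 2 * q by ring]
  exact deg_mul (deg_prob _ c) (deg_prob _ b)

lemma suc_nonneg (enc : PK → Bool → Alg D R WE ΩE C q) (dec : SK → C → Alg D R WD ΩD Bool q)
    (pk : PK) (sk : SK) (f g : D → R) : 0 ≤ suc enc dec pk f sk g := by
  unfold suc
  exact Finset.expect_nonneg fun b _ => Finset.sum_nonneg fun c _ =>
    mul_nonneg (Alg.prob_nonneg _ _ _) (Alg.prob_nonneg _ _ _)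

lemma suc_le_one (enc : PK → Bool → Alg D R WE ΩE C q) (dec : SK → C → Alg D R WD ΩD Bool q)
    (pk : PK) (sk : SK) (f g : D → R) : suc enc dec pk f sk g ≤ 1 := by
  unfold suc
  refine Finset.expect_le Finset.univ_nonempty fun b _ => ?_
  calc ∑ c, (enc pk b).prob f c * (dec sk c).prob g b
      ≤ ∑ c, (enc pk b).prob f c * 1 := Finset.sum_le_sum fun c _ =>
        mul_le_mul_of_nonneg_left (Alg.prob_le_one _ _ _) (Alg.prob_nonneg _ _ _)
    _ = ∑ c, (enc pk b).prob f c := by simp
    _ ≤ 1 := Alg.sum_prob_le _ _

end Suc

end Pool.Agent.IQP70
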