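import Pool.Agent.IQP70.Cert
import Pool.Agent.IQP70.DegProb

/-!
# The attack: collecting certificates
-/

set_option autoImplicit false
set_option linter.unusedSectionVars false

open scoped BigOperators

namespace Pool.Agent.IQP70

open Pool.Agent.QKA99 Pool.Agent.PKE70 Pool.Agent.QPKE99

section Tree

variable {D R SK : Type} [Fintype D] [DecidableEq D] [Fintype R] [Nonempty R]

/-- A decision tree that either finds a certificate that holds for the oracle, or stops at
certificates whose parts outside the queried points are pairwise disjoint. -/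
theorem exists_tree_cert {M K : ℕ} (hM : 0 < M)
    (𝒞 : SK × Finset D × (D → R) → Prop) (h𝒞 : ∀ c, 𝒞 c → c.2.1.card ≤ K)
    (X : (D → R) → Prop) (hX : ∀ f, X f → ∃ k P, 𝒞 (k, P, f))
    (G : (D → R) → (Fin M → SK × Finset D × (D → R)) → Prop)
    (hG1 : ∀ f c, 𝒞 c → (∀ x ∈ c.2.1, f x = c.2.2 x) → G f fun _ => c)
    (hG2 : ∀ (f : D → R) (L : Finset D) (c : Fin M → SK × Finset D × (D → R)),
      (∀ i, 𝒞 (c i)) → (∀ i, ∀ x ∈ (c i).2.1, x ∈ L → f x = (c i).2.2 x) →
      (∀ i j, i ≠ j → Disjoint ((c i).2.1 \ L) ((c j).2.1 \ L)) → G f c)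
    (hne : ∃ f, X f) (r : ℕ) :
    ∀ (L : Finset D) (g : D → R),
      (∀ c, 𝒞 c → (∀ x ∈ c.2.1, x ∈ L → g x = c.2.2 x) → (c.2.1 \ L).card ≤ r) →
      ∃ T : QAlg D R (Fin M → SK × Finset D × (D → R)), ∀ f, (X f ∧ ∀ x ∈ L, f x = g x) →
        T.cost f ≤ r * (M * K) ∧ G f (T.run f) := by
  classical
  obtain ⟨f₀, hf₀⟩ := hne
  obtain ⟨k₀, P₀, hc₀⟩ := hX f₀ hf₀
  induction r with
  | zero =>
    intro L g h
    by_cases hex : ∃ f, X f ∧ ∀ x ∈ L, f x = g x
    · obtain ⟨f₁, hf₁, hf₁L⟩ := hex
      obtain ⟨k, P, hc⟩ := hX f₁ hf₁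
      have h1 := h _ hc (fun x _ hxL => (hf₁L x hxL).symm)
      have h2 : P ⊆ L := by
        have : P \ L = ∅ := Finset.card_eq_zero.mp (Nat.le_zero.mp h1)
        exact Finset.sdiff_eq_empty_iff_subset.mp this
      refine ⟨QAlg.ret fun _ => (k, P, f₁), fun f hf => ⟨by simp, ?_⟩⟩
      refine hG1 f _ hc fun x hx => ?_
      rw [hf.2 x (h2 hx)]
      exact (hf₁L x (h2 hx)).symm
    · exact ⟨QAlg.ret fun _ => (k₀, P₀, f₀), fun f hf => absurd ⟨f, hf⟩ hex⟩
  | succ r ih =>
    intro L g h
    by_cases hin : ∃ c, 𝒞 c ∧ (∀ x ∈ c.2.1, x ∈ L → g x = c.2.2 x) ∧ c.2.1 ⊆ L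
    · obtain ⟨c, hc, hcg, hcL⟩ := hin
      refine ⟨QAlg.ret fun _ => c, fun f hf => ⟨by simp, hG1 f c hc fun x hx => ?_⟩⟩
      rw [hf.2 x (hcL hx)]
      exact hcg x hx (hcL hx)
    · push Not at hin
      obtain ⟨F, hF1, hF2, hF3⟩ := exists_max_family (fun S : Finset D =>
        ∃ c, 𝒞 c ∧ (∀ x ∈ c.2.1, x ∈ L → g x = c.2.2 x) ∧ c.2.1 \ L = S)
      choose cert hcert1 hcert2 hcert3 using hF2
      by_cases hcard : M ≤ F.card
      · obtain ⟨φ⟩ : Nonempty (Fin M ↪ F) := by
          apply Function.Embedding.nonempty_of_card_le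
          simpa using hcard
        refine ⟨QAlg.ret fun i => cert (φ i).1 (φ i).2, fun f hf => ⟨by simp, ?_⟩⟩
        refine hG2 f L _ (fun i => hcert1 _ (φ i).2) (fun i x hx hxL => ?_) fun i j hij => ?_
        · rw [hf.2 x hxL]
          exact hcert2 _ (φ i).2 x hx hxL
        · show Disjoint ((cert (φ i).1 (φ i).2).2.1 \ L) ((cert (φ j).1 (φ j).2).2.1 \ L)
          rw [hcert3 _ (φ i).2, hcert3 _ (φ j).2]
          exact hF1 (φ i).2 (φ j).2 fun h' => hij (φ.injective (Subtype.ext h'))
      · push Not at hcard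
        set H := F.biUnion id with hH
        have hHcard : H.card ≤ M * K := by
          calc H.card ≤ ∑ S ∈ F, S.card := Finset.card_biUnion_le
            _ ≤ ∑ _S ∈ F, K := Finset.sum_le_sum fun S hS => by
                rw [← hcert3 S hS]
                exact (Finset.card_le_card Finset.sdiff_subset).trans (h𝒞 _ (hcert1 S hS))
            _ = F.card * K := by rw [Finset.sum_const, smul_eq_mul]
            _ ≤ M * K := Nat.mul_le_mul_right _ hcard.le
        obtain ⟨T, hT⟩ := exists_askAll (fun f t => G f t) (r * (M * K)) H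
          (fun f => X f ∧ ∀ x ∈ L, f x = g x) (by
            intro g'
            obtain ⟨T, hT⟩ := ih (L ∪ H) (L.piecewise g g') (by
              intro c hc hcg
              have hcg' : ∀ x ∈ c.2.1, x ∈ L → g x = c.2.2 x := by
                intro x hx hxL
                have := hcg x hx (Finset.mem_union_left _ hxL)
                rwa [Finset.piecewise_eq_of_mem _ _ _ hxL] at this
              have h1 := h c hc hcg'
              have h2 : (c.2.1 \ L).Nonempty := by
                rw [Finset.nonempty_iff_ne_empty]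
                intro h0
                exact hin c hc hcg' (Finset.sdiff_eq_empty_iff_subset.mp h0)
              have h3 := hF3 (c.2.1 \ L) ⟨c, hc, hcg', rfl⟩ h2
              obtain ⟨x, hx1, hx2⟩ := Finset.not_disjoint_iff.mp h3
              have h4 : c.2.1 \ (L ∪ H) ⊂ c.2.1 \ L := by
                rw [Finset.ssubset_iff_of_subset
                  (Finset.sdiff_subset_sdiff le_rfl Finset.subset_union_left)]
                refine ⟨x, hx1, fun h' => ?_⟩
                exact (Finset.mem_sdiff.mp h').2 (Finset.mem_union_right _ hx2)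
              have h5 := Finset.card_lt_card h4
              omega)
            refine ⟨T, fun f hf hfH => hT f ⟨hf.1, fun x hx => ?_⟩⟩
            by_cases hxL : x ∈ L
            · rw [Finset.piecewise_eq_of_mem _ _ _ hxL]
              exact hf.2 x hxL
            · rw [Finset.piecewise_eq_of_notMem _ _ _ hxL]
              exact hfH x ((Finset.mem_union.mp hx).resolve_left hxL))
        refine ⟨T, fun f hf => ⟨(hT f hf).1.trans ?_, (hT f hf).2⟩⟩
        calc H.card + r * (M * K) ≤ M * K + r * (M * K) := Nat.add_le_add_right hHcard _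
          _ = (r + 1) * (M * K) := by ring

end Tree

end Pool.Agent.IQP70
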