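import Pool.Agent.IQP70.Markov
import Pool.Agent.QKA99.Hit

/-!
# Certificates
-/

set_option autoImplicit false
set_option linter.unusedSectionVars false

open scoped BigOperators

namespace Pool.Agent.IQP70

open Pool.Agent.QKA99

variable {D R E : Type} [Fintype D] [DecidableEq D] [AddCommGroup E]

/-- a pairwise disjoint family of sets with the property `Q` with as many members as possible -/
lemma exists_max_family (Q : Finset D → Prop) :
    ∃ F : Finset (Finset D), (F : Set (Finset D)).PairwiseDisjoint id ∧ (∀ S ∈ F, Q S) ∧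
      ∀ S, Q S → S.Nonempty → ¬ Disjoint S (F.biUnion id) := by
  classical
  obtain ⟨P, hP⟩ : ∃ P : Finset (Finset D) → Prop, ∀ F, P F ↔
      (F : Set (Finset D)).PairwiseDisjoint id ∧ ∀ S ∈ F, Q S := ⟨_, fun _ => Iff.rfl⟩
  obtain ⟨F, hF, hmax⟩ := Finset.exists_max_image
    (Finset.univ.filter fun F => P F) Finset.card
    ⟨∅, Finset.mem_filter.mpr ⟨Finset.mem_univ _, (hP ∅).mpr ⟨by simp, by simp⟩⟩⟩
  have hPF := (Finset.mem_filter.mp hF).2
  obtain ⟨hF1, hF2⟩ := (hP F).mp hPF
  refine ⟨F, hF1, hF2, ?_⟩
  intro S hS hne hdis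
  have hdis' : ∀ S' ∈ F, Disjoint S S' := by
    intro S' hS'
    exact Finset.disjoint_of_subset_right
      (Finset.subset_biUnion_of_mem (fun S : Finset D => id S) hS') hdis
  have hSF : S ∉ F := by
    intro hSF
    have h0 := hdis' S hSF
    rw [disjoint_self] at h0
    exact hne.ne_empty h0
  have hnew : P (insert S F) := by
    rw [hP]
    constructor
    · rw [Finset.coe_insert]
      refine hF1.insert fun S' hS' _ => hdis' S' hS'
    · intro S' hS'
      rcases Finset.mem_insert.mp hS' with rfl | hS'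
      · exact hS
      · exact hF2 S' hS'
  have := hmax (insert S F) (Finset.mem_filter.mpr ⟨Finset.mem_univ _, hnew⟩)
  rw [Finset.card_insert_of_notMem hSF] at this
  omega

/-- Let `a` have degree `n`, let `b` be a function of degree `e` with values in `[0, 1]`, and let
`b` be at least `c` where `a` is not zero. Then every point where `a` is not zero agrees with all
points of a subcube of small codimension on which `b` is at least `c - η`. -/
theorem exists_cert (e m : ℕ) (hm : 0 < m) (η : ℝ) (hη : (e : ℝ) ^ 2 ≤ m * η) (c : ℝ) (n : ℕ) :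
    ∀ (a : (D → R) → E) (b : (D → R) → ℝ), Low n a → Deg e b → (∀ y, 0 ≤ b y) →
      (∀ y, b y ≤ 1) → (∀ f, a f ≠ 0 → c ≤ b f) → ∀ g, a g ≠ 0 →
      ∃ P : Finset D, 2 * P.card ≤ m * n * (n + 1) ∧
        ∀ f, (∀ x ∈ P, f x = g x) → c - η ≤ b f := by
  have hη0 : 0 ≤ η := by
    by_contra h
    push Not at h
    have h1 : (m : ℝ) * η < 0 := mul_neg_of_pos_of_neg (by exact_mod_cast hm) h
    have h2 : (0 : ℝ) ≤ (e : ℝ) ^ 2 := by positivity
    linarith
  induction n with
  | zero =>
    intro a b ha _ _ _ hab g hg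
    refine ⟨∅, by simp, fun f _ => ?_⟩
    have := hab f (by rwa [ha.const f g])
    linarith
  | succ n ih =>
    intro a b ha hb h0 h1 hab g hg
    obtain ⟨F, hF1, hF2, hF3⟩ := exists_max_family
      (fun S : Finset D => S.card = n + 1 ∧ ∃ y f, alt S a y f ≠ 0)
    by_cases hcard : m ≤ F.card
    · refine ⟨∅, by simp, fun f _ => ?_⟩
      have hup := blocks_up hb h0 h1 f c F hF1 fun S hS => by
        obtain ⟨hc, y, f', hi⟩ := hF2 S hS
        obtain ⟨z, hz1, hz2⟩ := ha.exists_ne S hc.ge y f' hi f
        exact ⟨z, hz1, hab z hz2⟩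
      by_contra hcon
      push Not at hcon
      have h2 : η < c - b f := by linarith
      have h3 : (m : ℝ) ≤ F.card := by exact_mod_cast hcard
      have h4 : (0 : ℝ) < m := by exact_mod_cast hm
      have h5 : (m : ℝ) * η < m * (c - b f) := by
        exact mul_lt_mul_of_pos_left h2 h4
      have h6 : (m : ℝ) * (c - b f) ≤ F.card * (c - b f) :=
        mul_le_mul_of_nonneg_right h3 (by linarith)
      linarith
    · push Not at hcard
      set H := F.biUnion id with hH
      have hHcard : H.card ≤ m * (n + 1) := by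
        calc H.card ≤ ∑ S ∈ F, S.card := Finset.card_biUnion_le
          _ = ∑ _S ∈ F, (n + 1) := Finset.sum_congr rfl fun S hS => (hF2 S hS).1
          _ = F.card * (n + 1) := by rw [Finset.sum_const, smul_eq_mul]
          _ ≤ m * (n + 1) := Nat.mul_le_mul_right _ hcard.le
      obtain ⟨P, hP1, hP2⟩ := ih (res H g a) (res H g b)
        (ha.res H g fun S hS hne => hF3 S ⟨hS, hne⟩ (Finset.card_pos.mp (by omega)))
        (hb.res H g) (fun y => h0 _) (fun y => h1 _) (fun f hf => hab _ hf) g
        (by rwa [res_apply_of_eq _ _ _ _ fun x _ => rfl])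
      refine ⟨P ∪ H, ?_, fun f hf => ?_⟩
      · have := Finset.card_union_le P H
        have h2 : m * (n + 1) * (n + 1 + 1) = 2 * (m * (n + 1)) + m * n * (n + 1) := by ring
        omega
      · have h2 := hP2 f fun x hx => hf x (Finset.mem_union_left _ hx)
        rwa [res_apply_of_eq _ _ _ _ fun x hx => hf x (Finset.mem_union_right _ hx)] at h2

end Pool.Agent.IQP70
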