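import Pool.Agent.QKA99.Block

/-!
# Disjoint blocks whose change brings a bounded function of low degree up
-/

set_option autoImplicit false
set_option linter.unusedSectionVars false

open scoped BigOperators

namespace Pool.Agent.IQP70

open Pool.Agent.QKA99

section Moebius

open Polynomial

variable {ι : Type} [Fintype ι] [DecidableEq ι]

theorem sum_sub_le_of_moebius (e : ℕ) (φ : Finset ι → ℝ) (hφ : ∀ T, |φ T| ≤ 1)
    (hm : ∀ U : Finset ι, e < U.card → ∑ T ∈ U.powerset, (-1) ^ T.card * φ T = 0) :
    ∑ i, (φ ∅ - φ {i}) ≤ 2 * (e : ℝ) ^ 2 := by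
  set c : Finset ι → ℝ := fun U => (-1) ^ U.card * ∑ T ∈ U.powerset, (-1) ^ T.card * φ T with hc
  set P : ℝ[X] := ∑ U : Finset ι, C (c U) * X ^ U.card with hP
  have hPdeg : P.natDegree ≤ e := by
    refine Polynomial.natDegree_sum_le_of_forall_le _ _ fun U _ => ?_
    by_cases hU : e < U.card
    · have : c U = 0 := by simp only [hc]; rw [hm U hU, mul_zero]
      rw [this]
      simp
    · exact (Polynomial.natDegree_C_mul_X_pow_le _ _).trans (by omega)
  have hPeval : ∀ p : ℝ, P.eval p =
      ∑ T : Finset ι, φ T * (p ^ T.card * (1 - p) ^ (Fintype.card ι - T.card)) := by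
    intro p
    rw [← eval_moebius, hP, Polynomial.eval_finsetSum]
    refine Finset.sum_congr rfl fun U _ => ?_
    rw [Polynomial.eval_mul, Polynomial.eval_C, Polynomial.eval_pow, Polynomial.eval_X]
  have hPbd : ∀ p : ℝ, 0 ≤ p → p ≤ 1 → |P.eval p| ≤ 1 := by
    intro p hp0 hp1
    rw [hPeval]
    refine (Finset.abs_sum_le_sum_abs _ _).trans ?_
    have h3 := Finset.sum_pow_mul_eq_add_pow p (1 - p) (Finset.univ : Finset ι)
    rw [Finset.powerset_univ, Finset.card_univ, show p + (1 - p) = 1 by ring, one_pow] at h3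
    refine le_of_le_of_eq (Finset.sum_le_sum fun T _ => ?_) h3
    have hnn : 0 ≤ p ^ T.card * (1 - p) ^ (Fintype.card ι - T.card) := by
      have : 0 ≤ 1 - p := by linarith
      positivity
    rw [abs_mul, abs_of_nonneg hnn]
    exact mul_le_of_le_one_left hnn (hφ T)
  have hcoeff : P.derivative.eval 0 = - ∑ i, (φ ∅ - φ {i}) := by
    have h4 : P.derivative.eval 0 = P.coeff 1 := by
      rw [← Polynomial.coeff_zero_eq_eval_zero, Polynomial.coeff_derivative]
      simp
    rw [h4, hP, Polynomial.finsetSum_coeff]
    have h5 : ∀ U : Finset ι, (C (c U) * X ^ U.card).coeff 1 = if U.card = 1 then c U else 0 := by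
      intro U
      rw [Polynomial.coeff_C_mul, Polynomial.coeff_X_pow]
      by_cases h : U.card = 1
      · simp [h]
      · have h' : ¬ (1 = U.card) := fun h' => h h'.symm
        simp [h, h']
    simp only [h5]
    rw [← Finset.sum_filter]
    have h6 : (Finset.univ.filter fun U : Finset ι => U.card = 1) =
        Finset.univ.image fun i : ι => ({i} : Finset ι) := by
      ext U
      simp only [Finset.mem_filter, Finset.mem_univ, true_and, Finset.mem_image,
        Finset.card_eq_one]
      exact ⟨fun ⟨i, hi⟩ => ⟨i, hi.symm⟩, fun ⟨i, hi⟩ => ⟨i, hi.symm⟩⟩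
    rw [h6, Finset.sum_image (fun i _ j _ h => Finset.singleton_injective h), ← Finset.sum_neg_distrib]
    refine Finset.sum_congr rfl fun i _ => ?_
    simp only [hc]
    have h8 : ({i} : Finset ι).powerset = {∅, {i}} := by
      ext T
      simp [Finset.subset_singleton_iff]
    rw [Finset.card_singleton, h8, Finset.sum_pair (Finset.singleton_ne_empty i).symm]
    simp
    ring
  set Q : ℝ[X] := P.comp (C (1 / 2) - C (1 / 2) * X) with hQ
  have hlin : (C (1 / 2 : ℝ) - C (1 / 2) * X).natDegree ≤ 1 := by
    compute_degree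
  have hQdeg : Q.degree ≤ (e : ℕ) := by
    refine Polynomial.degree_le_of_natDegree_le ?_
    rw [hQ]
    refine Polynomial.natDegree_comp_le.trans ?_
    calc P.natDegree * (C (1 / 2 : ℝ) - C (1 / 2) * X).natDegree ≤ e * 1 :=
          Nat.mul_le_mul hPdeg hlin
      _ = e := by ring
  have hQbd : ∀ x ∈ Set.Icc (-1 : ℝ) 1, |Q.eval x| ≤ 1 := by
    rintro x ⟨hx1, hx2⟩
    rw [hQ, Polynomial.eval_comp]
    refine hPbd _ ?_ ?_ <;> simp <;> linarith
  have hmar := Polynomial.Chebyshev.eval_iterate_derivative_le_of_forall_abs_le_one (k := 1)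
    (le_refl (1 : ℝ)) hQdeg hQbd
  simp only [Function.iterate_one] at hmar
  rw [Polynomial.Chebyshev.derivative_T_eval_one] at hmar
  have hder : Q.derivative.eval 1 = (∑ i, (φ ∅ - φ {i})) / 2 := by
    rw [hQ, Polynomial.derivative_comp, Polynomial.eval_mul, Polynomial.eval_comp]
    have h8 : (C (1 / 2 : ℝ) - C (1 / 2) * X).eval 1 = 0 := by simp
    rw [h8, hcoeff]
    simp
    ring
  rw [hder] at hmar
  push_cast at hmar
  linarith

end Moebius

section Blocks

variable {D R : Type} [DecidableEq D]

/-- If changing the values of `f` on each of the disjoint sets in `F` can bring the value of a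
function `b : (D → R) → [0, 1]` of degree `e` up to `c`, then `b f` is at least `c` up to
`e ^ 2 / |F|`. -/
theorem blocks_up {e : ℕ} {b : (D → R) → ℝ} (hb : Deg e b) (h0 : ∀ y, 0 ≤ b y)
    (h1 : ∀ y, b y ≤ 1) (f : D → R) (c : ℝ) (F : Finset (Finset D))
    (hF : (F : Set (Finset D)).PairwiseDisjoint id)
    (hz : ∀ S ∈ F, ∃ z : D → R, (∀ x, x ∉ S → z x = f x) ∧ c ≤ b z) :
    F.card * (c - b f) ≤ (e : ℝ) ^ 2 := by
  classical
  choose z hz1 hz2 using fun i : F => hz i.1 i.2
  obtain ⟨col, hc⟩ : ∃ col : D → Option F, ∀ x i, col x = some i ↔ x ∈ i.1 := by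
    refine ⟨fun x => if h : ∃ i : F, x ∈ i.1 then some h.choose else none, fun x i => ?_⟩
    by_cases h : ∃ i : F, x ∈ i.1
    · simp only [h, dif_pos, Option.some.injEq]
      constructor
      · intro h'
        rw [← h']
        exact h.choose_spec
      · intro h'
        by_contra hcon
        have hd : Disjoint h.choose.1 i.1 :=
          hF h.choose.2 i.2 fun h'' => hcon (Subtype.ext h'')
        exact Finset.disjoint_left.mp hd h.choose_spec h'
    · simp only [h, dif_neg, not_false_iff]
      constructor
      · intro h'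
        exact absurd h' (by simp)
      · intro h'
        exact absurd ⟨i, h'⟩ h
  have hemp : blk col f z ∅ = f := by
    ext x
    unfold blk
    rcases col x with _ | j <;> simp
  have hsing : ∀ i, blk col f z {i} = z i := by
    intro i
    ext x
    unfold blk
    rcases hcx : col x with _ | j
    · have : x ∉ i.1 := fun h => by simpa [hcx] using (hc x i).mpr h
      exact (hz1 i x this).symm
    · by_cases hji : j = i
      · subst hji
        simp
      · have : x ∉ i.1 := fun h => by
          have h' := (hc x i).mpr h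
          rw [hcx] at h'
          exact hji (Option.some.inj h')
        simp [hji, hz1 i x this]
  have key := sum_sub_le_of_moebius (ι := F) e (fun T => 1 - 2 * b (blk col f z T)) ?_ ?_
  · simp only [hemp, hsing] at key
    have h3 : ∑ i : F, 2 * (c - b f) ≤ ∑ i : F, (1 - 2 * b f - (1 - 2 * b (z i))) :=
      Finset.sum_le_sum fun i _ => by linarith [hz2 i]
    rw [Finset.sum_const, nsmul_eq_mul, Finset.card_univ, Fintype.card_coe] at h3
    linarith
  · intro T
    rw [abs_le]
    constructor <;> linarith [h0 (blk col f z T), h1 (blk col f z T)]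
  · intro U hU
    have h2 := blk_alt_eq_zero hb col f z U hU
    have h3 : ∑ T ∈ U.powerset, (-1 : ℝ) ^ T.card * b (blk col f z T) = 0 := by
      rw [← h2]
      refine Finset.sum_congr rfl fun T _ => ?_
      rw [zsmul_eq_mul]
      push_cast
      ring
    have h4 : ∑ T ∈ U.powerset, (-1 : ℝ) ^ T.card = 0 := by
      have hne : U.Nonempty := Finset.card_pos.mp (by omega)
      have := Finset.sum_powerset_neg_one_pow_card_of_nonempty (x := U) hne
      exact_mod_cast this
    have h5 : ∀ T : Finset F, (-1 : ℝ) ^ T.card * (1 - 2 * b (blk col f z T)) =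
        (-1 : ℝ) ^ T.card - 2 * ((-1 : ℝ) ^ T.card * b (blk col f z T)) := fun T => by ring
    simp only [h5]
    rw [Finset.sum_sub_distrib, ← Finset.mul_sum, h3, h4]
    ring

end Blocks

end Pool.Agent.IQP70
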