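import Pool.Agent.QPKE99.Defs

/-!
# Public-key encryption by quantum algorithms, with quantum ciphertexts

Key generation, encryption and decryption are quantum circuits with oracle gates
(`Pool.Agent.QPKE99.Circuit`). The keys are classical. The ciphertext is the register `C` of the
final state of encryption, and decryption starts with this register.
-/

set_option autoImplicit false

open scoped BigOperators

namespace Pool.Agent.IQP70

open Pool.Agent.PKE70 Pool.Agent.QPKE99

section

variable {D R V C W α : Type} [AddCommGroup R] [Fintype R] [Fintype V] [Fintype C] [Fintype W]
  {q : ℕ}

/-- The part of the final state of a circuit with work registers `V` and `C` in which the answer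
register and the register `V` are in the basis states `j.1` and `j.2`: an unnormalised state of the
register `C`. If the answer register and `V` are discarded, then `C` is left in the mixture of
these states. -/
noncomputable def slice (K : Circuit D R (V × C) α q) (f : D → R) (j : R × V) :
    EuclideanSpace ℂ C :=
  WithLp.toLp 2 fun c => K.state f q (j.1, j.2, c)

open Classical in
/-- The initial state of a circuit with work registers `C` and `W` when the register `C` is in the
state `ψ`. -/
noncomputable def load (K : Circuit D R (C × W) α q) (ψ : EuclideanSpace ℂ C) :
    EuclideanSpace ℂ (R × C × W) :=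
  WithLp.toLp 2 fun i => if i.1 = K.start.1 ∧ i.2.2 = K.start.2.2 then ψ i.2.1 else 0

/-- The state of the circuit with oracle `f` after the unitary operator `U t`, if at the start the
register `C` is in the state `ψ`. -/
noncomputable def stateOn (K : Circuit D R (C × W) α q) (f : D → R) (ψ : EuclideanSpace ℂ C) :
    ℕ → EuclideanSpace ℂ (R × C × W)
  | 0 => K.U 0 (load K ψ)
  | t + 1 => K.U (t + 1) (gate (K.site t) f (stateOn K f ψ t))

open Classical in
/-- The probability that the circuit with oracle `f` outputs `a`, if at the start the register `C`
is in the state `ψ`. -/
noncomputable def probOn (K : Circuit D R (C × W) α q) (f : D → R) (ψ : EuclideanSpace ℂ C)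
    (a : α) : ℝ :=
  ∑ i, if K.out i = a then ‖stateOn K f ψ q i‖ ^ 2 else 0

end

/-- A public-key encryption scheme for one-bit messages relative to an oracle `D → R`, with
classical public keys `PK` and secret keys `SK`, and with ciphertexts in the quantum register `C`.
Key generation, encryption and decryption are quantum circuits with `q` oracle gates each. -/
structure QScheme (D R PK SK WG V C W : Type) [Fintype R] [Fintype WG] [Fintype V] [Fintype C]
    [Fintype W] (q : ℕ) where
  gen : Circuit D R WG (PK × SK) q
  enc : PK → Bool → Circuit D R (V × C) Unit q
  dec : SK → Circuit D R (C × W) Bool q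

namespace QScheme

variable {D R PK SK WG V C W W' Ω : Type} [AddCommGroup R] [Fintype R] [Fintype WG] [Fintype V]
  [Fintype C] [Fintype W] [Fintype W'] [Fintype Ω] {q : ℕ}

/-- With oracle `f` and the key pair `(pk, sk)`, the probability that the decryption of an
encryption of a random bit `b` is `b`. -/
noncomputable def keyProb (S : QScheme D R PK SK WG V C W q) (f : D → R) (pk : PK) (sk : SK) : ℝ :=
  𝔼 b : Bool, ∑ j, probOn (S.dec sk) f (slice (S.enc pk b) f j) b

/-- With oracle `f` and the public key `pk`, the probability that the adversary `A` finds a random
bit `b` from an encryption of it. Given `pk` and random coins `ω`, the adversary makes classical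
queries, and then runs on the ciphertext a quantum circuit with `q` oracle gates that may depend
on the answers. -/
noncomputable def advProb (S : QScheme D R PK SK WG V C W q)
    (A : PK → Ω → QAlg D R (Circuit D R (C × W') Bool q)) (f : D → R) (pk : PK) : ℝ :=
  𝔼 b : Bool, ∑ j, 𝔼 ω : Ω, probOn ((A pk ω).run f) f (slice (S.enc pk b) f j) b

end QScheme

end Pool.Agent.IQP70
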