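import Pool.Agent.IQP70.DegProb
import Pool.Agent.IQP70.QDefs

/-!
# Circuits with a quantum input: degree, change of the input, overriding answers
-/

set_option autoImplicit false
set_option linter.unusedSectionVars false

open scoped BigOperators

namespace Pool.Agent.IQP70

open Pool.Agent.QKA99 Pool.Agent.PKE70 Pool.Agent.QPKE99

variable {D R V C W α β : Type} [AddCommGroup R] [Fintype R] [Fintype V] [Fintype C]
  [Fintype W] {q : ℕ}

lemma load_apply [DecidableEq R] [DecidableEq W] (K : Circuit D R (C × W) α q)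
    (ψ : EuclideanSpace ℂ C) (i : R × C × W) :
    load K ψ i = if i.1 = K.start.1 ∧ i.2.2 = K.start.2.2 then ψ i.2.1 else 0 := by
  classical
  unfold load
  by_cases h : i.1 = K.start.1 ∧ i.2.2 = K.start.2.2 <;> simp [h]

lemma load_add (K : Circuit D R (C × W) α q) (ψ φ : EuclideanSpace ℂ C) :
    load K (ψ + φ) = load K ψ + load K φ := by
  classical
  ext i
  rw [PiLp.add_apply, load_apply, load_apply, load_apply, PiLp.add_apply]
  split_ifs <;> simp

lemma norm_load (K : Circuit D R (C × W) α q) (ψ : EuclideanSpace ℂ C) :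
    ‖load K ψ‖ ^ 2 = ‖ψ‖ ^ 2 := by
  classical
  rw [EuclideanSpace.norm_sq_eq, EuclideanSpace.norm_sq_eq, Fintype.sum_prod_type]
  simp only [load_apply, Fintype.sum_prod_type]
  rw [Finset.sum_eq_single K.start.1]
  · refine Finset.sum_congr rfl fun c _ => ?_
    rw [Finset.sum_eq_single K.start.2.2]
    · simp
    · intro w _ hw
      simp [hw]
    · intro h
      exact absurd (Finset.mem_univ _) h
  · intro r _ hr
    simp [hr]
  · intro h
    exact absurd (Finset.mem_univ _) h

lemma slice_apply (K : Circuit D R (V × C) α q) (f : D → R) (j : R × V) (c : C) :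
    slice K f j c = K.state f q (j.1, j.2, c) := rfl

lemma stateOn_add (K : Circuit D R (C × W) α q) (f : D → R) (ψ φ : EuclideanSpace ℂ C) (t : ℕ) :
    stateOn K f (ψ + φ) t = stateOn K f ψ t + stateOn K f φ t := by
  induction t with
  | zero =>
    show K.U 0 _ = K.U 0 _ + K.U 0 _
    rw [load_add, map_add]
  | succ t ih =>
    show K.U (t + 1) _ = K.U (t + 1) _ + K.U (t + 1) _
    rw [ih, map_add, map_add]

lemma norm_stateOn (K : Circuit D R (C × W) α q) (f : D → R) (ψ : EuclideanSpace ℂ C) (t : ℕ) :
    ‖stateOn K f ψ t‖ ^ 2 = ‖ψ‖ ^ 2 := by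
  induction t with
  | zero =>
    show ‖K.U 0 _‖ ^ 2 = _
    rw [LinearIsometryEquiv.norm_map, norm_load]
  | succ t ih =>
    show ‖K.U (t + 1) _‖ ^ 2 = _
    rw [LinearIsometryEquiv.norm_map, LinearIsometryEquiv.norm_map, ih]

/-! ### Degree -/

section Degree

variable [DecidableEq D]

lemma deg_slice (K : Circuit D R (V × C) α q) (j : R × V) : Deg q (fun f => slice K f j) := by
  have h := deg_state K q
  exact h.comp (AddMonoidHom.mk'
    (fun v : EuclideanSpace ℂ (R × V × C) =>
      (WithLp.toLp 2 fun c => v (j.1, j.2, c) : EuclideanSpace ℂ C)) (fun u v => by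
        ext c
        simp))

lemma deg_stateOn {d : ℕ} {ψ : (D → R) → EuclideanSpace ℂ C} (hψ : Deg d ψ)
    (K : Circuit D R (C × W) α q) (t : ℕ) : Deg (d + t) (fun f => stateOn K f (ψ f) t) := by
  induction t with
  | zero =>
    have h1 : Deg d (fun f => load K (ψ f)) :=
      hψ.comp (AddMonoidHom.mk' (load K) (load_add K))
    exact h1.unitary (K.U 0)
  | succ t ih => exact (ih.gate (K.site t)).unitary (K.U (t + 1))

lemma deg_probOn {d : ℕ} {ψ : (D → R) → EuclideanSpace ℂ C} (hψ : Deg d ψ)
    (K : Circuit D R (C × W) α q) (a : α) : Deg (2 * (d + q)) (fun f => probOn K f (ψ f) a) := by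
  classical
  unfold probOn
  refine Deg.sum _ _ fun i _ => ?_
  by_cases h : K.out i = a
  · simp only [h, if_true]
    exact deg_normSq (deg_stateOn hψ K q) i
  · simp only [h, if_false]
    exact (Deg.const (0 : ℝ)).mono (Nat.zero_le _)

end Degree

/-! ### Overriding answers -/

lemma stateOn_ovrd (K : Circuit D R (C × W) α q) (v : D → Option R) (f : D → R)
    (ψ : EuclideanSpace ℂ C) (t : ℕ) :
    stateOn (K.ovrd v) f ψ t = stateOn K (ovr f v) ψ t := by
  induction t with
  | zero => rfl
  | succ t ih =>
    show ((gate (siteIn v (K.site t)) (ovr (fun _ => 0) v)).trans (K.U (t + 1)))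
      (gate (siteOut v (K.site t)) f (stateOn (K.ovrd v) f ψ t)) = K.U (t + 1) _
    rw [ih, LinearIsometryEquiv.trans_apply, ← gate_ovr]

lemma probOn_ovrd (K : Circuit D R (C × W) α q) (v : D → Option R) (f : D → R)
    (ψ : EuclideanSpace ℂ C) (a : α) : probOn (K.ovrd v) f ψ a = probOn K (ovr f v) ψ a := by
  unfold probOn
  simp only [stateOn_ovrd]
  rfl

/-! ### Success probability -/

/-- the probability of the output `a` when the ciphertext is produced with the oracle `f` and
processed with the oracle `g` -/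
noncomputable def sucOn (E : Circuit D R (V × C) β q) (K : Circuit D R (C × W) α q) (f g : D → R)
    (a : α) : ℝ :=
  ∑ j, probOn K g (slice E f j) a

/-- all the final states of `K` together, for the ciphertexts in the state `u` -/
noncomputable def big (K : Circuit D R (C × W) α q) (g : D → R) (u : EuclideanSpace ℂ (R × V × C)) :
    EuclideanSpace ℂ ((R × V) × (R × C × W)) :=
  WithLp.toLp 2 fun ji =>
    stateOn K g (WithLp.toLp 2 fun c => u (ji.1.1, ji.1.2, c) : EuclideanSpace ℂ C) q ji.2

lemma big_apply (K : Circuit D R (C × W) α q) (g : D → R) (u : EuclideanSpace ℂ (R × V × C))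
    (j : R × V) (i : R × C × W) : big K g u (j, i) =
      stateOn K g (WithLp.toLp 2 fun c => u (j.1, j.2, c) : EuclideanSpace ℂ C) q i := rfl

lemma big_add (K : Circuit D R (C × W) α q) (g : D → R) (u v : EuclideanSpace ℂ (R × V × C)) :
    big K g (u + v) = big K g u + big K g v := by
  ext ⟨j, i⟩
  rw [PiLp.add_apply, big_apply, big_apply, big_apply, ← PiLp.add_apply, ← stateOn_add]
  rfl

lemma norm_big (K : Circuit D R (C × W) α q) (g : D → R) (u : EuclideanSpace ℂ (R × V × C)) :
    ‖big K g u‖ = ‖u‖ := by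
  refine (pow_left_inj₀ (norm_nonneg _) (norm_nonneg _) two_ne_zero).mp ?_
  rw [EuclideanSpace.norm_sq_eq, EuclideanSpace.norm_sq_eq, Fintype.sum_prod_type]
  have h : ∀ j : R × V, ∑ i, ‖big K g u (j, i)‖ ^ 2 = ∑ c, ‖u (j.1, j.2, c)‖ ^ 2 := by
    intro j
    simp only [big_apply]
    rw [← EuclideanSpace.norm_sq_eq, norm_stateOn, EuclideanSpace.norm_sq_eq]
  rw [Finset.sum_congr rfl fun j _ => h j, Fintype.sum_prod_type, Fintype.sum_prod_type]
  refine Finset.sum_congr rfl fun r _ => ?_
  rw [Fintype.sum_prod_type]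

open Classical in
lemma sucOn_eq (E : Circuit D R (V × C) β q) (K : Circuit D R (C × W) α q) (f g : D → R) (a : α) :
    sucOn E K f g a = ∑ p : (R × V) × (R × C × W), (if K.out p.2 = a then (1 : ℝ) else 0) *
      ‖big K g (E.state f q) p‖ ^ 2 := by
  classical
  unfold sucOn probOn
  symm
  rw [Fintype.sum_prod_type]
  refine Finset.sum_congr rfl fun j _ => ?_
  refine Finset.sum_congr rfl fun i _ => ?_
  by_cases h : K.out i = a
  · simp only [h, if_true, one_mul]
    rfl
  · simp [h]

/-- changing the oracle of the encryption -/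
lemma sucOn_enc [Fintype D] (E : Circuit D R (V × C) β q) (K : Circuit D R (C × W) α q)
    (f f' g : D → R) (a : α) : open Classical in
    |sucOn E K f g a - sucOn E K f' g a| ≤
      4 * Real.sqrt (q * ∑ x, if f x ≠ f' x then E.wt f' x else 0) := by
  classical
  rw [sucOn_eq, sucOn_eq, ← Finset.sum_sub_distrib]
  simp only [← mul_sub]
  refine (sum_sq_sub_le _ _ _ fun p => by split_ifs <;> simp).trans ?_
  rw [norm_big, norm_big, E.norm_state, E.norm_state]
  have h0 : big K g (E.state f q) - big K g (E.state f' q) =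
      big K g (E.state f q - E.state f' q) := by
    have := big_add K g (E.state f q - E.state f' q) (E.state f' q)
    rw [sub_add_cancel] at this
    rw [this, add_sub_cancel_right]
  rw [h0, norm_big]
  have h2 := E.dist_sq_le f f'
  have h3 : ‖E.state f q - E.state f' q‖ ≤
      2 * Real.sqrt (q * ∑ x, if f x ≠ f' x then E.wt f' x else 0) := by
    have h4 : 0 ≤ 2 * Real.sqrt (q * ∑ x, if f x ≠ f' x then E.wt f' x else 0) := by positivity
    refine (pow_le_pow_iff_left₀ (norm_nonneg _) h4 two_ne_zero).mp ?_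
    rw [mul_pow, Real.sq_sqrt]
    · linarith
    · have : 0 ≤ ∑ x, if f x ≠ f' x then E.wt f' x else 0 :=
        Finset.sum_nonneg fun x _ => by
          split_ifs
          · exact E.wt_nonneg _ _
          · exact le_rfl
      positivity
  linarith

lemma sucOn_nonneg (E : Circuit D R (V × C) β q) (K : Circuit D R (C × W) α q) (f g : D → R)
    (a : α) : 0 ≤ sucOn E K f g a := by
  classical
  unfold sucOn probOn
  exact Finset.sum_nonneg fun j _ => Finset.sum_nonneg fun i _ => by split_ifs <;> positivity

lemma sucOn_le_one (E : Circuit D R (V × C) β q) (K : Circuit D R (C × W) α q) (f g : D → R)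
    (a : α) : sucOn E K f g a ≤ 1 := by
  classical
  rw [sucOn_eq]
  calc _ ≤ ∑ p : (R × V) × (R × C × W), ‖big K g (E.state f q) p‖ ^ 2 := by
        refine Finset.sum_le_sum fun p _ => ?_
        split_ifs
        · rw [one_mul]
        · rw [zero_mul]
          positivity
    _ = ‖big K g (E.state f q)‖ ^ 2 := by rw [EuclideanSpace.norm_sq_eq]
    _ = 1 := by rw [norm_big, E.norm_state, one_pow]

/-- the probabilities of the outputs add up to one -/
lemma sum_sucOn [Fintype α] (E : Circuit D R (V × C) β q) (K : Circuit D R (C × W) α q)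
    (f g : D → R) : ∑ a, sucOn E K f g a = 1 := by
  classical
  simp only [sucOn_eq]
  rw [Finset.sum_comm]
  calc _ = ∑ p : (R × V) × (R × C × W), ‖big K g (E.state f q) p‖ ^ 2 := by
        refine Finset.sum_congr rfl fun p _ => ?_
        rw [← Finset.sum_mul]
        simp
    _ = ‖big K g (E.state f q)‖ ^ 2 := by rw [EuclideanSpace.norm_sq_eq]
    _ = 1 := by rw [norm_big, E.norm_state, one_pow]

lemma deg_sucOn [DecidableEq D] (E : Circuit D R (V × C) β q) (K : Circuit D R (C × W) α q)
    (a : α) : Deg (4 * q) (fun f => sucOn E K f f a) := by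
  unfold sucOn
  refine Deg.sum _ _ fun j _ => ?_
  have h := deg_probOn (deg_slice E j) K a
  rwa [show 2 * (q + q) = 4 * q by ring] at h

/-- Whether an output is possible is told by a function of degree at most the number of
queries. -/
lemma exists_deg_support' [DecidableEq D] (K : Circuit D R W α q) (x : α) :
    ∃ a : (D → R) → EuclideanSpace ℂ (R × W), Deg q a ∧ ∀ f, a f ≠ 0 ↔ K.prob f x ≠ 0 := by
  classical
  refine ⟨fun f => proj (fun i => K.out i = x) (K.state f q), (deg_state K q).proj _,
    fun f => ?_⟩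
  rw [not_iff_not]
  have h1 : K.prob f x = ‖proj (fun i => K.out i = x) (K.state f q)‖ ^ 2 := by
    rw [norm_sq_eq]
    unfold Circuit.prob
    refine Finset.sum_congr rfl fun i _ => ?_
    rw [proj_apply]
    split_ifs <;> simp
  rw [h1]
  simp

end Pool.Agent.IQP70
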