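import Pool.Agent.IQP70.Attack
import Pool.Agent.IQP70.QCirc

/-!
# The attack on schemes with quantum ciphertexts
-/

set_option autoImplicit false
set_option linter.unusedSectionVars false

open scoped BigOperators

namespace Pool.Agent.IQP70

open Pool.Agent.QKA99 Pool.Agent.PKE70 Pool.Agent.QPKE99

section

variable {D R : Type} [Fintype D] [DecidableEq D]

/-- the hybrid errors of many disjoint changes of the oracle -/
lemma sum_hybrid_le {M q : ℕ} (w : Bool → D → ℝ) (hw0 : ∀ b x, 0 ≤ w b x)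
    (hw : ∀ b, ∑ x, w b x ≤ q) (f : D → R) (g : Fin M → D → R) (B : Fin M → Finset D)
    (hB : ∀ i x, g i x ≠ f x → x ∈ B i) (hdis : ∀ i j, i ≠ j → Disjoint (B i) (B j)) :
    open Classical in
    ∑ i, 𝔼 b : Bool, 4 * Real.sqrt (q * ∑ x, if g i x ≠ f x then w b x else 0) ≤
      4 * q * Real.sqrt M := by
  classical
  set W : Bool → Fin M → ℝ := fun b i => ∑ x, if g i x ≠ f x then w b x else 0 with hW
  have hW0 : ∀ b i, 0 ≤ W b i := fun b i => Finset.sum_nonneg fun x _ => by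
    split_ifs
    · exact hw0 b x
    · exact le_rfl
  have hWsum : ∀ b, ∑ i, W b i ≤ q := by
    intro b
    rw [hW]
    simp only
    rw [Finset.sum_comm]
    refine le_trans (Finset.sum_le_sum fun x _ => ?_) (hw b)
    by_cases hx : ∃ i, x ∈ B i
    · obtain ⟨i, hi⟩ := hx
      rw [Finset.sum_eq_single i]
      · split_ifs
        · exact le_rfl
        · exact hw0 b x
      · intro j _ hji
        have : ¬ (g j x ≠ f x) := fun h' =>
          Finset.disjoint_left.mp (hdis j i hji) (hB j x h') hi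
        simp only [this, if_false]
      · intro h'
        exact absurd (Finset.mem_univ i) h'
    · rw [Finset.sum_eq_zero]
      · exact hw0 b x
      · intro j _
        have : ¬ (g j x ≠ f x) := fun h' => hx ⟨j, hB j x h'⟩
        simp only [this, if_false]
  rw [← Finset.expect_sum_comm]
  refine Finset.expect_le Finset.univ_nonempty fun b _ => ?_
  rw [← Finset.mul_sum]
  have h3 := sum_sqrt_mul_le (Finset.univ : Finset (Fin M)) (fun _ => 1)
    (fun i => q * W b i) (fun _ _ => zero_le_one)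
    (fun i _ => mul_nonneg (Nat.cast_nonneg _) (hW0 b i))
  simp only [one_mul, Finset.sum_const, Finset.card_univ, Fintype.card_fin, nsmul_eq_mul,
    mul_one] at h3
  have h4 : Real.sqrt ((M : ℝ) * ∑ i, (q : ℝ) * W b i) ≤ q * Real.sqrt M := by
    rw [Real.sqrt_le_left (by positivity), mul_pow, Real.sq_sqrt (Nat.cast_nonneg _),
      ← Finset.mul_sum]
    have h5 : (q : ℝ) * ∑ i, W b i ≤ q * q :=
      mul_le_mul_of_nonneg_left (hWsum b) (Nat.cast_nonneg _)
    have h6 : (M : ℝ) * (q * ∑ i, W b i) ≤ M * (q * q) :=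
      mul_le_mul_of_nonneg_left h5 (Nat.cast_nonneg _)
    linarith
  linarith

/-- the values `c.2` on the set `c.1` -/
noncomputable def patch (c : Finset D × (D → R)) (x : D) : Option R :=
  if x ∈ c.1 then some (c.2 x) else none

lemma ovr_patch_of_mem (f : D → R) (c : Finset D × (D → R)) {x : D} (hx : x ∈ c.1) :
    ovr f (patch c) x = c.2 x := ovr_some (by simp [patch, hx])

lemma ovr_patch_of_notMem (f : D → R) (c : Finset D × (D → R)) {x : D} (hx : x ∉ c.1) :
    ovr f (patch c) x = f x := ovr_of_none (by simp [patch, hx])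

/-- stop after `n` queries with the output `d` -/
def cut {α : Type} (d : α) : ℕ → QAlg D R α → QAlg D R α
  | _, QAlg.ret a => QAlg.ret a
  | 0, QAlg.ask _ _ => QAlg.ret d
  | n + 1, QAlg.ask x k => QAlg.ask x fun y => cut d n (k y)

lemma cost_cut {α : Type} (d : α) (n : ℕ) (T : QAlg D R α) (f : D → R) :
    (cut d n T).cost f ≤ n := by
  induction T generalizing n with
  | ret a => cases n <;> simp [cut]
  | ask x k ih =>
    cases n with
    | zero => simp [cut]
    | succ n =>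
      simp only [cut, QAlg.cost_ask]
      exact Nat.add_le_add_right (ih _ _) 1

lemma run_cut {α : Type} (d : α) (n : ℕ) (T : QAlg D R α) (f : D → R) (h : T.cost f ≤ n) :
    (cut d n T).run f = T.run f := by
  induction T generalizing n with
  | ret a => cases n <;> rfl
  | ask x k ih =>
    cases n with
    | zero => simp at h
    | succ n =>
      simp only [cut, QAlg.run_ask]
      rw [QAlg.cost_ask] at h
      exact ih _ _ (by omega)

end

variable {D R PK SK WG V C W : Type} [Fintype D] [DecidableEq D] [AddCommGroup R] [Fintype R]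
  [Fintype WG] [Fintype V] [Fintype C] [Fintype W] {q : ℕ}

/-- the success probability when encryption uses the oracle `f` and decryption `g` -/
noncomputable def sucQ (S : QScheme D R PK SK WG V C W q) (pk : PK) (f : D → R) (sk : SK)
    (g : D → R) : ℝ :=
  𝔼 b : Bool, sucOn (S.enc pk b) (S.dec sk) f g b

lemma sucQ_self (S : QScheme D R PK SK WG V C W q) (pk : PK) (f : D → R) (sk : SK) :
    sucQ S pk f sk f = S.keyProb f pk sk := rfl

lemma sucQ_enc (S : QScheme D R PK SK WG V C W q) (pk : PK) (f f' : D → R) (sk : SK)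
    (g : D → R) : open Classical in
    |sucQ S pk f sk g - sucQ S pk f' sk g| ≤
      𝔼 b : Bool, 4 * Real.sqrt (q * ∑ x, if f x ≠ f' x then (S.enc pk b).wt f' x else 0) := by
  classical
  unfold sucQ
  rw [← Finset.expect_sub_distrib]
  exact (Finset.abs_expect_le _ _).trans
    (Finset.expect_le_expect fun b _ => sucOn_enc _ _ _ _ _ _)

/-- The attack for a fixed public key. -/
theorem attackQ_pk (S : QScheme D R PK SK WG V C W q) (pk : PK) {δ η₁ η₂ : ℝ}
    (m M : ℕ) (hm : 0 < m) (hM : 0 < M) (hne : ∃ (f : D → R) (sk : SK), S.gen.prob f (pk, sk) ≠ 0)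
    (hη1 : 16 * (q : ℝ) ^ 2 ≤ m * η₁) (hη2 : 0 ≤ η₂) (hM2 : 16 * (q : ℝ) ^ 2 ≤ M * η₂ ^ 2)
    (h : ∀ f sk, S.gen.prob f (pk, sk) ≠ 0 → δ ≤ S.keyProb f pk sk) :
    ∃ T : QAlg D R (Fin M → SK × Finset D × (D → R)), ∀ f : D → R,
      (∃ sk, S.gen.prob f (pk, sk) ≠ 0) →
        T.cost f ≤ m * q ^ 2 * (M * (m * q ^ 2)) ∧
          M * (δ - η₁ - η₂) ≤ ∑ i, sucQ S pk f (T.run f i).1 (ovr f (patch (T.run f i).2)) := by
  classical
  obtain ⟨T, hT⟩ := exists_tree_cert (M := M) (K := m * q ^ 2) hM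
    (fun c : SK × Finset D × (D → R) => c.2.1.card ≤ m * q ^ 2 ∧
      ∀ f, (∀ x ∈ c.2.1, f x = c.2.2 x) → δ - η₁ ≤ sucQ S pk f c.1 f)
    (fun c hc => hc.1) (fun f => ∃ sk, S.gen.prob f (pk, sk) ≠ 0)
    (by
      rintro f ⟨sk, hsk⟩
      obtain ⟨a, ha1, ha2⟩ := exists_deg_support' S.gen (pk, sk)
      obtain ⟨P, hP1, hP2⟩ := exists_cert (4 * q) m hm η₁ (by push_cast; linarith) δ q a
        (fun f => sucQ S pk f sk f) ha1.low (deg_expect _ fun b => deg_sucOn _ _ _)
        (fun f => Finset.expect_nonneg fun b _ => sucOn_nonneg _ _ _ _ _)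
        (fun f => Finset.expect_le Finset.univ_nonempty fun b _ => sucOn_le_one _ _ _ _ _)
        (fun f hf => h f sk ((ha2 f).mp hf)) f ((ha2 f).mpr hsk)
      refine ⟨sk, P, ?_, hP2⟩
      have h1 : q + 1 ≤ 2 * q ∨ q = 0 := by omega
      rcases h1 with h1 | h1
      · have h2 : m * q * (q + 1) ≤ m * q * (2 * q) := Nat.mul_le_mul_left _ h1
        have h3 : m * q * (2 * q) = 2 * (m * q ^ 2) := by ring
        show P.card ≤ m * q ^ 2
        omega
      · have h2 : 2 * P.card ≤ 0 := by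
          rw [h1] at hP1
          simpa using hP1
        show P.card ≤ m * q ^ 2
        omega)
    (fun f c => M * (δ - η₁ - η₂) ≤ ∑ i, sucQ S pk f (c i).1 (ovr f (patch (c i).2)))
    (by
      rintro f c ⟨-, hc⟩ hf
      have h1 : ovr f (patch c.2) = f := by
        funext x
        by_cases hx : x ∈ c.2.1
        · rw [ovr_patch_of_mem f c.2 hx, hf x hx]
        · rw [ovr_patch_of_notMem f c.2 hx]
      show _ ≤ ∑ _i : Fin M, sucQ S pk f c.1 (ovr f (patch c.2))
      rw [h1, Finset.sum_const, Finset.card_univ, Fintype.card_fin, nsmul_eq_mul]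
      have h2 := hc f hf
      refine mul_le_mul_of_nonneg_left ?_ (Nat.cast_nonneg _)
      linarith)
    (by
      intro f L c hc hL hdis
      have h1 := sum_hybrid_le (q := q) (fun b x => (S.enc pk b).wt f x)
        (fun b x => (S.enc pk b).wt_nonneg f x) (fun b => (S.enc pk b).sum_wt_le f) f
        (fun i => ovr f (patch (c i).2)) (fun i => (c i).2.1 \ L)
        (by
          intro i x hx
          by_cases hxP : x ∈ (c i).2.1
          · refine Finset.mem_sdiff.mpr ⟨hxP, fun hxL => hx ?_⟩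
            rw [ovr_patch_of_mem f _ hxP]
            exact (hL i x hxP hxL).symm
          · exact absurd (ovr_patch_of_notMem f _ hxP) hx)
        hdis
      have h2 : ∀ i, δ - η₁ ≤ sucQ S pk (ovr f (patch (c i).2)) (c i).1
          (ovr f (patch (c i).2)) := fun i =>
        (hc i).2 _ fun x hx => ovr_patch_of_mem f _ hx
      have h2' : ∀ i, δ - η₁ - (𝔼 b : Bool, 4 * Real.sqrt (q * ∑ x,
          if ovr f (patch (c i).2) x ≠ f x then (S.enc pk b).wt f x else 0)) ≤
          sucQ S pk f (c i).1 (ovr f (patch (c i).2)) := by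
        intro i
        have h5 := (le_abs_self _).trans (sucQ_enc S pk (ovr f (patch (c i).2)) f (c i).1
          (ovr f (patch (c i).2)))
        linarith [h2 i]
      have h3 := Finset.sum_le_sum fun (i : Fin M) (_ : i ∈ Finset.univ) => h2' i
      rw [Finset.sum_sub_distrib, Finset.sum_const, Finset.card_univ, Fintype.card_fin,
        nsmul_eq_mul] at h3
      have h4 : 4 * q * Real.sqrt M ≤ M * η₂ := by
        have h5 : 4 * (q : ℝ) ≤ Real.sqrt M * η₂ := by
          refine (pow_le_pow_iff_left₀ (by positivity) (by positivity) two_ne_zero).mp ?_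
          rw [mul_pow, mul_pow, Real.sq_sqrt (Nat.cast_nonneg _)]
          linarith
        calc 4 * q * Real.sqrt M ≤ (Real.sqrt M * η₂) * Real.sqrt M :=
              mul_le_mul_of_nonneg_right h5 (Real.sqrt_nonneg _)
          _ = (Real.sqrt M * Real.sqrt M) * η₂ := by ring
          _ = M * η₂ := by rw [Real.mul_self_sqrt (Nat.cast_nonneg _)]
      linarith)
    hne (m * q ^ 2) ∅ (fun _ => 0) (fun c hc _ => by simpa using hc.1)
  exact ⟨T, fun f hf => hT f ⟨hf, by simp⟩⟩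

/-- The attack. -/
theorem mainQ (hq : 1 ≤ q) (S : QScheme D R PK SK WG V C W q) (δ : PK → ℝ) {η : ℝ} (hη : 0 < η)
    (hη1 : η ≤ 1) (h : ∀ f pk sk, S.gen.prob f (pk, sk) ≠ 0 → δ pk ≤ S.keyProb f pk sk) :
    ∃ (m : ℕ) (A : PK → Fin (m + 1) → QAlg D R (Circuit D R (C × W) Bool q)),
      (∀ pk ω f, ((A pk ω).cost f : ℝ) ≤ 80000 * q ^ 10 / η ^ 4) ∧
      ∀ f pk sk, S.gen.prob f (pk, sk) ≠ 0 → δ pk - η ≤ S.advProb A f pk := by
  classical
  have hq' : (1 : ℝ) ≤ q := by exact_mod_cast hq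
  set m : ℕ := ⌈32 * (q : ℝ) ^ 2 / η⌉₊ with hm
  set M : ℕ := ⌈64 * (q : ℝ) ^ 2 / η ^ 2⌉₊ with hM
  have hm0 : 0 < m := Nat.ceil_pos.mpr (by positivity)
  have hm1 : 32 * (q : ℝ) ^ 2 / η ≤ m := Nat.le_ceil _
  have hM1 : 64 * (q : ℝ) ^ 2 / η ^ 2 ≤ M := Nat.le_ceil _
  have hm2 : (m : ℝ) < 32 * (q : ℝ) ^ 2 / η + 1 := Nat.ceil_lt_add_one (by positivity)
  have hM2 : (M : ℝ) < 64 * (q : ℝ) ^ 2 / η ^ 2 + 1 := Nat.ceil_lt_add_one (by positivity)
  have hle1 : 1 ≤ (q : ℝ) ^ 2 / η := by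
    rw [le_div_iff₀ hη]
    nlinarith
  have hle2 : 1 ≤ (q : ℝ) ^ 2 / η ^ 2 := by
    rw [le_div_iff₀ (by positivity)]
    nlinarith
  have hm3 : (m : ℝ) ≤ 33 * ((q : ℝ) ^ 2 / η) := by
    have : 32 * (q : ℝ) ^ 2 / η = 32 * ((q : ℝ) ^ 2 / η) := by ring
    linarith
  have hM3 : ((M + 1 : ℕ) : ℝ) ≤ 66 * ((q : ℝ) ^ 2 / η ^ 2) := by
    have : 64 * (q : ℝ) ^ 2 / η ^ 2 = 64 * ((q : ℝ) ^ 2 / η ^ 2) := by ring
    push_cast
    linarith
  set N : ℕ := m * q ^ 2 * ((M + 1) * (m * q ^ 2)) with hN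
  have hNle : (N : ℝ) ≤ 80000 * q ^ 10 / η ^ 4 := by
    have h1 : (N : ℝ) = (m : ℝ) * m * ((M + 1 : ℕ) : ℝ) * q ^ 4 := by
      rw [hN]
      push_cast
      ring
    have h2 : (m : ℝ) * m * ((M + 1 : ℕ) : ℝ) ≤ (33 * ((q : ℝ) ^ 2 / η)) *
        (33 * ((q : ℝ) ^ 2 / η)) * (66 * ((q : ℝ) ^ 2 / η ^ 2)) := by
      gcongr
    have h3 : (33 * ((q : ℝ) ^ 2 / η)) * (33 * ((q : ℝ) ^ 2 / η)) *
        (66 * ((q : ℝ) ^ 2 / η ^ 2)) * q ^ 4 = 71874 * (q ^ 10 / η ^ 4) := by
      field_simp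
      ring
    have h4 : (0 : ℝ) ≤ q ^ 10 / η ^ 4 := by positivity
    calc (N : ℝ) = (m : ℝ) * m * ((M + 1 : ℕ) : ℝ) * q ^ 4 := h1
      _ ≤ (33 * ((q : ℝ) ^ 2 / η)) * (33 * ((q : ℝ) ^ 2 / η)) *
          (66 * ((q : ℝ) ^ 2 / η ^ 2)) * q ^ 4 := mul_le_mul_of_nonneg_right h2 (by positivity)
      _ = 71874 * (q ^ 10 / η ^ 4) := h3
      _ ≤ 80000 * (q ^ 10 / η ^ 4) := by linarith
      _ = 80000 * q ^ 10 / η ^ 4 := by ring
  have sk₀ : SK := (S.gen.out S.gen.start).2
  obtain ⟨t₀⟩ : Nonempty (Fin (M + 1) → SK × Finset D × (D → R)) := ⟨fun _ => (sk₀, ∅, 0)⟩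
  have key : ∀ pk : PK, ∃ T : QAlg D R (Fin (M + 1) → SK × Finset D × (D → R)),
      ∀ f : D → R, (∃ sk, S.gen.prob f (pk, sk) ≠ 0) →
        T.cost f ≤ N ∧ ((M + 1 : ℕ) : ℝ) * (δ pk - η / 2 - η / 2) ≤
            ∑ i, sucQ S pk f (T.run f i).1 (ovr f (patch (T.run f i).2)) := by
    intro pk
    by_cases hne : ∃ (f : D → R) (sk : SK), S.gen.prob f (pk, sk) ≠ 0
    · exact attackQ_pk S pk (δ := δ pk) (η₁ := η / 2) (η₂ := η / 2) m (M + 1) hm0
        (Nat.succ_pos M) hne
        (by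
          have : 32 * (q : ℝ) ^ 2 ≤ m * η := by rwa [div_le_iff₀ hη] at hm1
          linarith)
        (by positivity)
        (by
          have : 64 * (q : ℝ) ^ 2 ≤ M * η ^ 2 := by rwa [div_le_iff₀ (by positivity)] at hM1
          push_cast
          nlinarith [sq_nonneg η])
        (fun f sk => h f pk sk)
    · exact ⟨QAlg.ret t₀, fun f hf => absurd ⟨f, hf⟩ hne⟩
  choose T hT using key
  let A : PK → Fin (M + 1) → QAlg D R (Circuit D R (C × W) Bool q) := fun pk ω =>
    (cut t₀ N (T pk)).bind fun t => QAlg.ret ((S.dec (t ω).1).ovrd (patch (t ω).2))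
  refine ⟨M, A, fun pk ω f => ?_, fun f pk sk hsk => ?_⟩
  · have h1 : (A pk ω).cost f ≤ N := by
      show ((cut t₀ N (T pk)).bind _).cost f ≤ N
      rw [QAlg.cost_bind, QAlg.cost_ret, add_zero]
      exact cost_cut _ _ _ _
    exact le_trans (by exact_mod_cast h1) hNle
  · obtain ⟨h1, h2⟩ := hT pk f ⟨sk, hsk⟩
    set c := (T pk).run f with hc
    have hrun : ∀ ω, (A pk ω).run f = (S.dec (c ω).1).ovrd (patch (c ω).2) := by
      intro ω
      show ((cut t₀ N (T pk)).bind _).run f = _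
      rw [QAlg.run_bind, QAlg.run_ret, run_cut _ _ _ _ h1]
    have h3 : S.advProb A f pk =
        𝔼 ω : Fin (M + 1), sucQ S pk f (c ω).1 (ovr f (patch (c ω).2)) := by
      unfold QScheme.advProb sucQ sucOn
      rw [Finset.expect_comm]
      refine Finset.expect_congr rfl fun b _ => ?_
      rw [Finset.expect_sum_comm]
      refine Finset.sum_congr rfl fun x _ => ?_
      refine Finset.expect_congr rfl fun ω _ => ?_
      rw [hrun, probOn_ovrd]
    rw [h3, Fintype.expect_eq_sum_div_card, Fintype.card_fin, le_div_iff₀ (by positivity)]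
    linarith

end Pool.Agent.IQP70
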